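import Pool.Agent.Helper65_C4F.RR

/-!
MP_be2f05_lc, squad C4F, row CRL: variables of a relay.
-/

set_option autoImplicit false

namespace Pool.Agent.C4F.H65

open Pool.Agent.C4F

theorem crl (hr : RrStmt) (hs : SrcStmt) : CrlStmt := by
  intro D hD r
  have hk := kp_pos hD
  obtain ⟨A, hA, hA'⟩ := cn_set (D.VR r) D.n
  obtain ⟨B, hB, hB'⟩ := cn_set (fun s => ∃ t < 3 * D.m, D.Lk s t ∧ D.rt s t = r) (3 * D.m)
  have h1 : A.card ≤ B.card := by
    refine le_trans (Finset.card_le_card ?_) (Finset.card_image_le (f := D.vr))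
    intro v hv
    obtain ⟨-, s, hs1, t, ht, hl, hrt, hvr⟩ := (hA' v).1 hv
    rw [Finset.mem_image]
    exact ⟨s, (hB' s).2 ⟨hs1, t, ht, hl, hrt⟩, hvr⟩
  choose C hC hC' using fun p p' : ℕ => cn_set (fun s => ∃ t < 3 * D.m, D.Lk s t ∧ D.grp s = p ∧
    D.grp t = p' ∧ D.rt s t = r) (3 * D.m)
  have h2 : B.card ≤ ∑ p ∈ Finset.range D.kp, ∑ p' ∈ Finset.range D.kp,
        (cn (D.Src p p') (3 * D.m) / D.kp + 1) := by
    have h3 : B ⊆ (Finset.range D.kp).biUnion fun p => (Finset.range D.kp).biUnion fun p' =>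
          C p p' := by
      intro s hs1
      obtain ⟨hs1, t, ht, hl, hrt⟩ := (hB' s).1 hs1
      rw [Finset.mem_biUnion]
      refine ⟨D.grp s, Finset.mem_range.2 (Nat.mod_lt _ hk), ?_⟩
      rw [Finset.mem_biUnion]
      refine ⟨D.grp t, Finset.mem_range.2 (Nat.mod_lt _ hk), ?_⟩
      exact (hC' _ _ s).2 ⟨hs1, t, ht, hl, rfl, rfl, hrt⟩
    refine le_trans (Finset.card_le_card h3) (le_trans Finset.card_biUnion_le ?_)
    refine Finset.sum_le_sum fun p _ => le_trans Finset.card_biUnion_le ?_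
    refine Finset.sum_le_sum fun p' _ => ?_
    rw [hC p p']
    exact hr D hD p p' r
  have h5 := (hs D hD).2.2.2
  have h6 : ∑ p ∈ Finset.range D.kp, ∑ p' ∈ Finset.range D.kp,
        (cn (D.Src p p') (3 * D.m) / D.kp + 1) =
      (∑ p ∈ Finset.range D.kp, ∑ p' ∈ Finset.range D.kp, cn (D.Src p p') (3 * D.m) / D.kp) +
        D.kp ^ 2 := by
    simp only [Finset.sum_add_distrib, Finset.sum_const, Finset.card_range, smul_eq_mul, mul_one]
    ring
  have h7 : ∑ p ∈ Finset.range D.kp, ∑ p' ∈ Finset.range D.kp, cn (D.Src p p') (3 * D.m) / D.kp ≤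
      3 * (D.m / D.kp + 1) := by
    have h8 : (∑ p ∈ Finset.range D.kp, ∑ p' ∈ Finset.range D.kp,
        cn (D.Src p p') (3 * D.m) / D.kp) * D.kp ≤ 3 * D.m := by
      rw [Finset.sum_mul]
      refine le_trans (Finset.sum_le_sum fun p _ => ?_) h5
      rw [Finset.sum_mul]
      exact Finset.sum_le_sum fun p' _ => Nat.div_mul_le_self _ _
    have h9 : D.m < D.kp * (D.m / D.kp + 1) := by
      have h10 := Nat.div_add_mod D.m D.kp
      have h11 := Nat.mod_lt D.m hk
      rw [mul_add, mul_one]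
      omega
    refine Nat.le_of_mul_le_mul_right (le_trans h8 ?_) hk
    calc 3 * D.m ≤ 3 * (D.kp * (D.m / D.kp + 1)) := Nat.mul_le_mul_left _ h9.le
      _ = 3 * (D.m / D.kp + 1) * D.kp := by ring
  unfold Dat.W
  rw [← hA]
  calc A.card ≤ _ := h1
    _ ≤ _ := h2
    _ = _ := h6
    _ ≤ _ := Nat.add_le_add_right h7 _

end Pool.Agent.C4F.H65
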