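import Pool.Agent.C4F.StmtsP

/-!
MP_be2f05_lc, squad C4F, row RR: round robin count.
-/

set_option autoImplicit false

namespace Pool.Agent.C4F.H65

open Pool.Agent.C4F

theorem kp_pos {D : Dat} (h : D.Ok) : 0 < D.kp := by
  have h3 := h.three
  unfold Dat.kp Dat.h
  have : 1 ≤ (D.q - 1) / 2 := by omega
  exact Nat.mul_pos (by omega) (by omega)

theorem cn_set (P : ℕ → Prop) (n : ℕ) :
    ∃ S : Finset ℕ, S.card = cn P n ∧ ∀ s, s ∈ S ↔ s < n ∧ P s := by
  classical
  refine ⟨(Finset.range n).filter P, ?_, fun s => by rw [Finset.mem_filter, Finset.mem_range]⟩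
  unfold cn
  rw [Nat.count_eq_card_filter_range]

theorem cn_lt {P : ℕ → Prop} {s n : ℕ} (h : P s) (hs : s < n) : cn P s < cn P n := by
  classical
  unfold cn
  exact Nat.count_strict_mono h hs

theorem cn_inj {P : ℕ → Prop} {s t : ℕ} (h : P s) (h' : P t) (he : cn P s = cn P t) : s = t := by
  classical
  unfold cn at he
  exact Nat.count_injective h h' he

theorem rr : RrStmt := by
  intro D hD p p' r
  have hk := kp_pos hD
  obtain ⟨N, hN⟩ : ∃ N, N = cn (D.Src p p') (3 * D.m) := ⟨_, rfl⟩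
  have h1 : N / D.kp + 1 ≥ ((Finset.range N).filter (fun c => c ≡ r [MOD D.kp])).card := by
    rw [← Nat.count_eq_card_filter_range, Nat.count_modEq_card _ hk]
    split_ifs <;> omega
  rw [← hN]
  obtain ⟨S, hS, hS'⟩ := cn_set (fun s => ∃ t < 3 * D.m, D.Lk s t ∧ D.grp s = p ∧
    D.grp t = p' ∧ D.rt s t = r) (3 * D.m)
  rw [← hS]
  refine le_trans ?_ h1
  have key : ∀ s ∈ S, s < 3 * D.m ∧ D.Src p p' s ∧ cn (D.Src p p') s % D.kp = r := by
    intro s hs
    obtain ⟨hs1, t, ht, hl, hg, hg', hr⟩ := (hS' s).1 hs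
    refine ⟨hs1, ⟨t, ht, hl, hg, hg'⟩, ?_⟩
    have h2 : D.rt s t = cn (D.Src (D.grp s) (D.grp t)) s % D.kp := rfl
    rw [h2, hg, hg'] at hr
    exact hr
  refine Finset.card_le_card_of_injOn (fun s => cn (D.Src p p') s) ?_ ?_
  · intro s hs
    obtain ⟨h2, h3, h4⟩ := key s (Finset.mem_coe.1 hs)
    have h5 : cn (D.Src p p') s < N := by
      rw [hN]
      exact cn_lt h3 h2
    have h6 : cn (D.Src p p') s ≡ r [MOD D.kp] := by
      rw [← h4]
      exact (Nat.mod_modEq _ _).symm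
    rw [Finset.mem_coe, Finset.mem_filter, Finset.mem_range]
    exact ⟨h5, h6⟩
  · intro s hs s' hs' h
    obtain ⟨-, h3, -⟩ := key s (Finset.mem_coe.1 hs)
    obtain ⟨-, h3', -⟩ := key s' (Finset.mem_coe.1 hs')
    exact cn_inj h3 h3' h

end Pool.Agent.C4F.H65
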